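import Pool.Agent.R658.LQ.Core

/-! # MP_e45129_gt: complete locally GTG locally minimal groups are almost minimal -/

set_option autoImplicit false

namespace R658.LQ

open Topology Filter Set Pool.Agent.H753R3.LM

/-- `(1/n) U` -/
def dv {G : Type} [AddCommGroup G] (n : ℕ) (U : Set G) : Set G :=
  {x | ∀ k : ℕ, 1 ≤ k → k ≤ n → k • x ∈ U}

/-- the sets `(1/n) U`, `n ≥ 1`, form a basis of neighbourhoods of `0` in the topology `t` -/
def DvBasis {G : Type} [AddCommGroup G] (t : TopologicalSpace G) (U : Set G) : Prop :=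
  (@nhds G t 0).HasBasis (fun n : ℕ => 1 ≤ n) (fun n => dv n U)

/-- no strictly coarser Hausdorff group topology -/
def Minimal (G : Type) [AddCommGroup G] [τ : TopologicalSpace G] : Prop :=
  ∀ σ : TopologicalSpace G, @IsTopologicalAddGroup G σ _ → @T2Space G σ → τ ≤ σ → σ = τ

/-- there is a neighbourhood `V` of `0` such that every coarser Hausdorff group topology in which
`V` is still a neighbourhood of `0` equals the given one -/
def LocallyMinimal (G : Type) [AddCommGroup G] [τ : TopologicalSpace G] : Prop :=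
  ∃ V ∈ 𝓝 (0 : G), ∀ σ : TopologicalSpace G, @IsTopologicalAddGroup G σ _ → @T2Space G σ →
    τ ≤ σ → V ∈ @nhds G σ 0 → σ = τ

/-- uniformly free from small subgroups -/
def UFSS (G : Type) [AddCommGroup G] [τ : TopologicalSpace G] : Prop :=
  ∃ U ∈ 𝓝 (0 : G), (∀ x ∈ U, -x ∈ U) ∧ DvBasis τ U

/-- GTG subsets -/
def GTG {G : Type} [AddCommGroup G] (U : Set G) : Prop :=
  (0 : G) ∈ U ∧ (∀ x ∈ U, -x ∈ U) ∧
    ∃ t : TopologicalSpace G, @IsTopologicalAddGroup G t _ ∧ DvBasis t U

/-- `0` has a basis of neighbourhoods consisting of GTG subsets -/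
def LocallyGTG (G : Type) [AddCommGroup G] [TopologicalSpace G] : Prop :=
  ∀ O ∈ 𝓝 (0 : G), ∃ U ∈ 𝓝 (0 : G), U ⊆ O ∧ GTG U

/-- almost minimal groups -/
def AlmostMinimal (G : Type) [AddCommGroup G] [TopologicalSpace G] : Prop :=
  ∃ N : AddSubgroup G, IsClosed (N : Set G) ∧ Minimal N ∧ UFSS (G ⧸ N)

section
variable {G : Type} [AddCommGroup G]

theorem dv_anti {m n : ℕ} (h : m ≤ n) (U : Set G) : dv n U ⊆ dv m U :=
  fun _ hx k h1 h2 => hx k h1 (h2.trans h)

theorem dv_neg {n : ℕ} {U : Set G} (hU : ∀ x ∈ U, -x ∈ U) : ∀ x ∈ dv n U, -x ∈ dv n U := by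
  intro x hx k h1 h2
  rw [smul_neg]
  exact hU _ (hx k h1 h2)

theorem dv_mem_nhds [TopologicalSpace G] [IsTopologicalAddGroup G] (n : ℕ) {U : Set G}
    (hU : U ∈ 𝓝 (0 : G)) : dv n U ∈ 𝓝 (0 : G) := by
  have : dv n U = ⋂ k ∈ Finset.Icc 1 n, (fun x : G => k • x) ⁻¹' U := by
    ext x
    simp only [dv, mem_ofPred_eq, mem_iInter, Finset.mem_Icc, mem_preimage]
    exact ⟨fun h k hk => h k hk.1 hk.2, fun h k h1 h2 => h k ⟨h1, h2⟩⟩
  rw [this, biInter_finset_mem]
  intro k _
  have hc : Continuous (fun x : G => k • x) := continuous_nsmul k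
  have := hc.tendsto 0
  rw [smul_zero] at this
  exact this hU

/-- an ultrafilter containing all members of a chain as in `chain_small` converges -/
theorem ultra_conv [UniformSpace G] [IsUniformAddGroup G] [CompleteSpace G] (V : ℕ → Set G)
    (hS : ∀ U ∈ 𝓝 (0 : G), ∃ n, Sml (V n) U) (F : Ultrafilter G) (hF : ∀ n, V n ∈ F) :
    ∃ x, (F : Filter G) ≤ 𝓝 x := by
  refine CompleteSpace.complete ?_
  refine ⟨F.neBot, ?_⟩
  rw [uniformity_eq_comap_nhds_zero G]
  intro s hs
  obtain ⟨U, hU, hUs⟩ := mem_comap.1 hs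
  obtain ⟨U', hU', hUU⟩ := Pool.Agent.H753R3.LM.nhds_half_sub hU
  obtain ⟨n, T, hT⟩ := hS U' hU'
  have h1 : (⋃ f ∈ T, {x : G | x - f ∈ U'}) ∈ (F : Filter G) := by
    refine mem_of_superset (hF n) fun x hx => ?_
    obtain ⟨f, hf, hxf⟩ := hT x hx
    exact mem_iUnion₂.2 ⟨f, hf, hxf⟩
  obtain ⟨f, hf, hfF⟩ := (Ultrafilter.finite_biUnion_mem_iff T.finite_toSet).1 h1
  refine mem_prod_iff.2 ⟨_, hfF, _, hfF, ?_⟩
  rintro ⟨x, y⟩ ⟨hx, hy⟩
  apply hUs
  have := hUU _ hy _ hx
  simpa using this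

theorem half_of_basis {U : Set G} (t : TopologicalSpace G) (ht : @IsTopologicalAddGroup G t _)
    (hb : DvBasis t U) : ∀ n : ℕ, ∃ m : ℕ, 1 ≤ m ∧
      ∀ x ∈ dv m U, ∀ y ∈ dv m U, x + y ∈ dv (max n 1) U := by
  intro n
  have h1 : dv (max n 1) U ∈ @nhds G t 0 := hb.mem_of_mem (le_max_right _ _)
  obtain ⟨W, hW, hWW⟩ := @exists_nhds_zero_half G t _
    (@IsTopologicalAddGroup.toContinuousAdd G t _ ht) _ h1
  obtain ⟨m, hm1, hm2⟩ := hb.mem_iff.1 hW
  exact ⟨m, hm1, fun x hx y hy => hWW x (hm2 hx) y (hm2 hy)⟩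

theorem minimal_of_compact (H : Type) [AddCommGroup H] [τ : TopologicalSpace H] [CompactSpace H] :
    Minimal H := by
  intro σ _ h2 h3
  have hcm : @Continuous H H τ σ id := continuous_id_iff_le.2 h3
  have hclm : @IsClosedMap H H τ σ id := @Continuous.isClosedMap H H τ σ _ h2 id hcm
  refine le_antisymm ?_ h3
  rw [← continuous_id_iff_le]
  rw [@continuous_iff_isClosed H H σ τ id]
  intro s hs
  have := hclm s hs
  rw [image_id] at this
  exact this

end

theorem almostMinimal (G : Type) [AddCommGroup G] [UniformSpace G] [IsUniformAddGroup G]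
    [T2Space G] [CompleteSpace G] (hG : LocallyGTG G) (hm : LocallyMinimal G) :
    AlmostMinimal G := by
  classical
  obtain ⟨V₀, hV₀, hmin⟩ := hm
  obtain ⟨U, hU, hUV, hU0, hUs, t, ht, hb⟩ := hG V₀ hV₀
  -- halving
  have hhalf := half_of_basis t ht hb
  clear hb ht
  clear t
  choose f hf1 hf2 using hhalf
  let m : ℕ → ℕ := fun n => Nat.rec 1 (fun n k => max (f k) (n + 1)) n
  have hm0 : m 0 = 1 := rfl
  have hms : ∀ n, m (n + 1) = max (f (m n)) (n + 1) := fun n => rfl
  have hm1 : ∀ n, 1 ≤ m n := by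
    intro n
    cases n with
    | zero => exact le_rfl
    | succ n => rw [hms]; exact (hf1 _).trans (le_max_left _ _)
  have hmn : ∀ n, n ≤ m n := by
    intro n
    cases n with
    | zero => exact Nat.zero_le _
    | succ n => rw [hms]; exact le_max_right _ _
  have hch : Chain (fun n => dv (m n) U) := by
    refine ⟨fun n k _ _ => by rw [smul_zero]; exact hU0, fun n => dv_neg hUs, ?_⟩
    intro n x hx y hy
    have hx' : x ∈ dv (f (m n)) U := dv_anti (by rw [hms]; exact le_max_left _ _) U hx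
    have hy' : y ∈ dv (f (m n)) U := dv_anti (by rw [hms]; exact le_max_left _ _) U hy
    have := hf2 (m n) x hx' y hy'
    rwa [max_eq_left (hm1 n)] at this
  have hS := chain_small G V₀ hmin (fun n => dv (m n) U) hch (fun n => dv_mem_nhds _ hU)
    (fun x hx => hUV (by simpa using hx 1 le_rfl le_rfl))
  have hconv : ∀ F : Ultrafilter G, (∀ n, dv n U ∈ F) → ∃ x, (F : Filter G) ≤ 𝓝 x :=
    fun F hF => ultra_conv _ hS F (fun n => hF _)
  -- the subgroup
  let N : AddSubgroup G :=
    { carrier := ⋂ n, dv n U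
      zero_mem' := mem_iInter.2 fun n k _ _ => by rw [smul_zero]; exact hU0
      add_mem' := fun {x y} hx hy => mem_iInter.2 fun n =>
        dv_anti (le_max_left n 1) U (hf2 n x (mem_iInter.1 hx _) y (mem_iInter.1 hy _))
      neg_mem' := fun {x} hx => mem_iInter.2 fun n => dv_neg hUs _ (mem_iInter.1 hx n) }
  have hN : ∀ x : G, x ∈ N ↔ ∀ n, x ∈ dv n U := fun x => mem_iInter
  -- limit points of all the sets `dv n U` are in `N`
  have hcl : ∀ x : G, (∀ n, x ∈ closure (dv n U)) → x ∈ N := by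
    intro x hx
    refine (hN x).2 fun n => ?_
    have h1 : {y : G | x - y ∈ dv (f n) U} ∈ 𝓝 x := by
      have h2 : Tendsto (fun y : G => x - y) (𝓝 x) (𝓝 0) := by
        have h3 : Continuous (fun y : G => x - y) := by fun_prop
        have h4 := h3.tendsto x
        rwa [sub_self] at h4
      exact h2 (dv_mem_nhds _ hU)
    obtain ⟨y, hy1, hy2⟩ := mem_closure_iff_nhds.1 (hx (f n)) _ h1
    have := hf2 n (x - y) hy1 y hy2
    rw [sub_add_cancel] at this
    exact dv_anti (le_max_left n 1) U this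
  have hNcl : IsClosed (N : Set G) := by
    apply isClosed_of_closure_subset
    intro x hx
    refine hcl x fun n => closure_mono ?_ hx
    intro y hy
    exact (hN y).1 hy n
  have hNc : IsCompact (N : Set G) := by
    rw [isCompact_iff_ultrafilter_le_nhds]
    intro F hF
    rw [le_principal_iff] at hF
    have hFn : ∀ n, dv n U ∈ F := fun n => mem_of_superset hF fun y hy => (hN y).1 hy n
    obtain ⟨x, hx⟩ := hconv F hFn
    refine ⟨x, hcl x fun n => ?_, hx⟩
    exact mem_closure_iff_ultrafilter.2 ⟨F, hFn n, hx⟩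
  refine ⟨N, hNcl, ?_, ?_⟩
  · have : CompactSpace N := isCompact_iff_compactSpace.1 hNc
    exact minimal_of_compact N
  · -- the quotient is UFSS
    obtain ⟨W, hW1, hWW⟩ : ∃ W : Set G, (∃ k, W = dv k U) ∧ ∀ x ∈ W, ∀ y ∈ W, x + y ∈ U :=
      ⟨dv (f 1) U, ⟨_, rfl⟩, fun x hx y hy => by
        have := hf2 1 x hx y hy 1 le_rfl (le_max_right _ _)
        simpa using this⟩
    obtain ⟨k0, rfl⟩ := hW1
    let π : G → G ⧸ N := QuotientAddGroup.mk
    have hUb : π '' (dv k0 U) ∈ 𝓝 (0 : G ⧸ N) :=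
      (QuotientAddGroup.isOpenMap_coe (N := N)).image_mem_nhds (x := 0) (dv_mem_nhds k0 hU)
    refine ⟨π '' (dv k0 U), hUb, ?_, ?_⟩
    · rintro _ ⟨x, hx, rfl⟩
      exact ⟨-x, dv_neg hUs x hx, rfl⟩
    · refine hasBasis_iff.2 fun O => ⟨fun hO => ?_, fun ⟨n, _, hn⟩ =>
        mem_of_superset (dv_mem_nhds n hUb) hn⟩
      by_contra hcon
      push Not at hcon
      have hex : ∀ n : ℕ, ∃ x : G, x ∈ dv n U ∧ π x ∉ O := by
        intro n
        obtain ⟨h, hh, hhO⟩ := not_subset.1 (hcon (n + 1) (Nat.le_add_left _ _))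
        obtain ⟨x, rfl⟩ := QuotientAddGroup.mk_surjective h
        refine ⟨x, fun k hk1 hk2 => ?_, hhO⟩
        obtain ⟨w, hw, hwx⟩ := hh k hk1 (hk2.trans (Nat.le_succ _))
        have h1 : -w + k • x ∈ N := QuotientAddGroup.eq.1 hwx
        have := hWW w hw _ ((hN _).1 h1 k0)
        simpa using this
      choose x hx hxO using hex
      obtain ⟨y, hy⟩ := hconv ((hyperfilter ℕ).map x) (fun n => by
        rw [Ultrafilter.mem_map]
        refine mem_of_superset (Nat.hyperfilter_le_atTop (eventually_ge_atTop n)) fun j hj => ?_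
        exact dv_anti hj U (hx j))
      have hyN : y ∈ N := hcl y fun n => mem_closure_iff_ultrafilter.2
        ⟨(hyperfilter ℕ).map x, by
          rw [Ultrafilter.mem_map]
          refine mem_of_superset (Nat.hyperfilter_le_atTop (eventually_ge_atTop n)) fun j hj => ?_
          exact dv_anti hj U (hx j), hy⟩
      have hπ : Continuous π := continuous_quot_mk
      have hlim : Tendsto (fun j => π (x j)) (hyperfilter ℕ) (𝓝 (π y)) := by
        refine (hπ.tendsto y).comp ?_
        exact hy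
      have hπy : π y = 0 := (QuotientAddGroup.eq_zero_iff y).2 hyN
      rw [hπy] at hlim
      have hev := hlim hO
      have : (∅ : Set ℕ) ∈ (hyperfilter ℕ : Filter ℕ) := by
        refine mem_of_superset hev fun j hj => ?_
        exact hxO j hj
      exact (hyperfilter ℕ).neBot.ne (empty_mem_iff_bot.1 this)

end R658.LQ
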