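import Pool.Agent.R658.LQ.Stmts

/-! # MP_27feec_al: quotients of complete locally minimal abelian groups by compact subgroups -/

set_option autoImplicit false

namespace R658.LQ

open Topology Filter Set Pool.Agent.H753R3.LM

theorem Lift.comp {P Q H : Type} [AddCommGroup P] [TopologicalSpace P] [AddCommGroup Q]
    [TopologicalSpace Q] [AddCommGroup H] [TopologicalSpace H] {p : P →+ Q} {q : Q →+ H}
    (hq : Lift q) (hp : Lift p) : Lift (q.comp p) := by
  intro V hV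
  obtain ⟨V1, hV1, h1⟩ := hp V hV
  obtain ⟨V2, hV2, h2⟩ := hq V1 hV1
  refine ⟨V2, hV2, fun W hW hWn hW0 => ?_⟩
  obtain ⟨X, hX, hXn, hX0, hXW⟩ := h2 W hW hWn hW0
  obtain ⟨Y, hY, hYn, hY0, hYX⟩ := h1 X hX hXn hX0
  refine ⟨Y, hY, hYn, hY0, fun n => ?_⟩
  obtain ⟨m, hm⟩ := hYX n
  obtain ⟨k, hk⟩ := hXW m
  refine ⟨k, fun w hw => ?_⟩
  obtain ⟨x, hx, rfl⟩ := hk hw
  obtain ⟨y, hy, rfl⟩ := hm hx
  exact ⟨y, hy, rfl⟩

section
variable {G : Type} [AddCommGroup G] [TopologicalSpace G] [IsTopologicalAddGroup G] [T2Space G]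

theorem map_props (A B : AddSubgroup G) (h : A ≤ B) :
    Continuous (QuotientAddGroup.map A B (AddMonoidHom.id G) h) ∧
    IsOpenMap (QuotientAddGroup.map A B (AddMonoidHom.id G) h) ∧
    Function.Surjective (QuotientAddGroup.map A B (AddMonoidHom.id G) h) := by
  refine ⟨?_, ?_, ?_⟩
  · rw [(QuotientAddGroup.isQuotientMap_mk (N := A)).continuous_iff]
    exact (continuous_quot_mk : Continuous (QuotientAddGroup.mk : G → G ⧸ B))
  · intro s hs
    have h1 : (QuotientAddGroup.map A B (AddMonoidHom.id G) h) '' s =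
        (QuotientAddGroup.mk : G → G ⧸ B) '' ((QuotientAddGroup.mk : G → G ⧸ A) ⁻¹' s) := by
      ext y
      constructor
      · rintro ⟨x, hx, rfl⟩
        obtain ⟨g, rfl⟩ := QuotientAddGroup.mk_surjective x
        exact ⟨g, hx, rfl⟩
      · rintro ⟨g, hg, rfl⟩
        exact ⟨_, hg, rfl⟩
    rw [h1]
    exact QuotientAddGroup.isOpenMap_coe _ (hs.preimage continuous_quot_mk)
  · intro y
    obtain ⟨g, rfl⟩ := QuotientAddGroup.mk_surjective y
    exact ⟨(g : G ⧸ A), rfl⟩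

theorem lift_step (hLL : TaskLL) (A B : AddSubgroup G) (h : A ≤ B) (hA : IsClosed (A : Set G))
    (hB : IsCompact (B : Set G)) (χ : B →+ AddCircle (1 : ℝ)) (hχ : Continuous χ)
    (hker : ∀ b : B, χ b = 0 ↔ (b : G) ∈ A) :
    Lift (QuotientAddGroup.map A B (AddMonoidHom.id G) h) := by
  have : T3Space (G ⧸ A) := QuotientAddGroup.instT3Space A
  obtain ⟨h1, h2, h3⟩ := map_props A B h
  refine hLL G (G ⧸ A) (G ⧸ B) (QuotientAddGroup.mk' A) _ continuous_quot_mk
    QuotientAddGroup.isOpenMap_coe (QuotientAddGroup.mk'_surjective A) h1 h2 h3 B hB ?_ χ hχ ?_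
  · intro x
    exact QuotientAddGroup.eq_zero_iff x
  · intro k
    rw [hker]
    exact QuotientAddGroup.eq_zero_iff (k : G)

/-- common kernel of the first `i` characters -/
def Kn (K : AddSubgroup G) (χ : ℕ → (K →+ AddCircle (1 : ℝ))) (i : ℕ) : AddSubgroup G where
  carrier := {g | ∃ h : g ∈ K, ∀ j < i, χ j ⟨g, h⟩ = 0}
  zero_mem' := ⟨K.zero_mem, fun j _ => (χ j).map_zero⟩
  add_mem' := by
    rintro a b ⟨ha, ha2⟩ ⟨hb, hb2⟩
    refine ⟨K.add_mem ha hb, fun j hj => ?_⟩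
    have := (χ j).map_add ⟨a, ha⟩ ⟨b, hb⟩
    rw [ha2 j hj, hb2 j hj, add_zero] at this
    exact this
  neg_mem' := by
    rintro a ⟨ha, ha2⟩
    refine ⟨K.neg_mem ha, fun j hj => ?_⟩
    have := (χ j).map_neg ⟨a, ha⟩
    rw [ha2 j hj, neg_zero] at this
    exact this

theorem Kn_le (K : AddSubgroup G) (χ : ℕ → (K →+ AddCircle (1 : ℝ))) (i : ℕ) : Kn K χ i ≤ K :=
  fun _ hg => hg.1

theorem Kn_anti (K : AddSubgroup G) (χ : ℕ → (K →+ AddCircle (1 : ℝ))) (i : ℕ) :
    Kn K χ (i + 1) ≤ Kn K χ i :=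
  fun _ hg => ⟨hg.1, fun j hj => hg.2 j (hj.trans (Nat.lt_succ_self i))⟩

theorem Kn_compact (K : AddSubgroup G) (hK : IsCompact (K : Set G))
    (χ : ℕ → (K →+ AddCircle (1 : ℝ))) (hχ : ∀ i, Continuous (χ i)) (i : ℕ) :
    IsCompact (Kn K χ i : Set G) := by
  have : CompactSpace K := isCompact_iff_compactSpace.1 hK
  have h1 : (Kn K χ i : Set G) = Subtype.val '' (⋂ j ∈ {j | j < i}, {k : K | χ j k = 0}) := by
    ext g
    constructor
    · rintro ⟨h, h2⟩
      exact ⟨⟨g, h⟩, mem_iInter₂.2 fun j hj => h2 j hj, rfl⟩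
    · rintro ⟨⟨k, hk⟩, h2, rfl⟩
      exact ⟨hk, fun j hj => mem_iInter₂.1 h2 j hj⟩
  rw [h1]
  refine IsCompact.image (IsClosed.isCompact ?_) continuous_subtype_val
  exact isClosed_biInter fun j _ => isClosed_eq (hχ j) continuous_const

theorem lift_Kn (hLL : TaskLL) (K : AddSubgroup G) (hK : IsCompact (K : Set G))
    (χ : ℕ → (K →+ AddCircle (1 : ℝ))) (hχ : ∀ i, Continuous (χ i)) :
    ∀ i, Lift (QuotientAddGroup.map (Kn K χ i) K (AddMonoidHom.id G) (Kn_le K χ i)) := by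
  intro i
  induction i with
  | zero =>
    refine lift_step hLL _ _ _ (Kn_compact K hK χ hχ 0).isClosed hK 0 continuous_const ?_
    intro b
    exact ⟨fun _ => ⟨b.2, fun j hj => absurd hj (Nat.not_lt_zero j)⟩, fun _ => rfl⟩
  | succ i ih =>
    have h1 : Lift (QuotientAddGroup.map (Kn K χ (i + 1)) (Kn K χ i) (AddMonoidHom.id G)
        (Kn_anti K χ i)) := by
      refine lift_step hLL _ _ _ (Kn_compact K hK χ hχ (i + 1)).isClosed (Kn_compact K hK χ hχ i)
        ((χ i).comp (AddSubgroup.inclusion (Kn_le K χ i))) ?_ ?_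
      · exact (hχ i).comp (continuous_inclusion (Kn_le K χ i))
      · intro b
        constructor
        · intro hb
          refine ⟨b.2.1, fun j hj => ?_⟩
          rcases Nat.lt_succ_iff_lt_or_eq.1 hj with h | h
          · exact b.2.2 j h
          · rw [h]
            exact hb
        · rintro ⟨h1, h2⟩
          exact h2 i (Nat.lt_succ_self i)
    have h2 := Lift.comp ih h1
    have h3 : (QuotientAddGroup.map (Kn K χ i) K (AddMonoidHom.id G) (Kn_le K χ i)).comp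
        (QuotientAddGroup.map (Kn K χ (i + 1)) (Kn K χ i) (AddMonoidHom.id G) (Kn_anti K χ i)) =
        QuotientAddGroup.map (Kn K χ (i + 1)) K (AddMonoidHom.id G) (Kn_le K χ (i + 1)) := by
      ext g
      rfl
    rw [h3] at h2
    exact h2

theorem lift_mk (hLL : TaskLL) (hCH : TaskCH) (K : AddSubgroup G) (hK : IsCompact (K : Set G)) :
    Lift (QuotientAddGroup.mk' K) := by
  classical
  intro V hV
  have : CompactSpace K := isCompact_iff_compactSpace.1 hK
  obtain ⟨Vb, hVb, hVV⟩ := exists_nhds_zero_half hV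
  obtain ⟨r, χ, hχ, hχV⟩ := hCH K ((Subtype.val : K → G) ⁻¹' Vb)
    ((continuous_subtype_val (p := fun g : G => g ∈ K)).continuousAt (x := 0) hVb)
  let χ' : ℕ → (K →+ AddCircle (1 : ℝ)) := fun i => if h : i < r then χ ⟨i, h⟩ else 0
  have hχ' : ∀ i, Continuous (χ' i) := by
    intro i
    by_cases h : i < r
    · simp only [χ', dif_pos h]
      exact hχ _
    · simp only [χ', dif_neg h]
      exact continuous_const
  set A := Kn K χ' r with hAdef
  have hA : ∀ g ∈ A, g ∈ Vb := by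
    rintro g ⟨hg, hg2⟩
    refine hχV ⟨g, hg⟩ fun i => ?_
    have := hg2 i.1 i.2
    simp only [χ', dif_pos i.2] at this
    exact this
  let π : G → G ⧸ A := QuotientAddGroup.mk
  have hV1 : π '' Vb ∈ 𝓝 (0 : G ⧸ A) :=
    (QuotientAddGroup.isOpenMap_coe (N := A)).image_mem_nhds (x := 0) hVb
  obtain ⟨V', hV', hlift⟩ := lift_Kn hLL K hK χ' hχ' r _ hV1
  refine ⟨V', hV', fun W hW hWn hW0 => ?_⟩
  obtain ⟨X, hX, hXn, hX0, hXW⟩ := hlift W hW hWn hW0
  refine ⟨fun n => π ⁻¹' X n, ⟨fun n => hX.zero n, fun n x hx => hX.neg n _ hx,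
    fun n x hx y hy => hX.add n _ hx _ hy⟩, fun n => ?_, ?_, fun n => ?_⟩
  · have h1 : Continuous π := continuous_quot_mk
    exact h1.continuousAt (x := 0) (hXn n)
  · intro x hx
    obtain ⟨v, hv, hvx⟩ := hX0 hx
    have h1 : -v + x ∈ A := QuotientAddGroup.eq.1 hvx
    have := hVV v hv _ (hA _ h1)
    simpa using this
  · obtain ⟨m, hm⟩ := hXW n
    refine ⟨m, fun w hw => ?_⟩
    obtain ⟨x, hx, rfl⟩ := hm hw
    obtain ⟨g, rfl⟩ := QuotientAddGroup.mk_surjective x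
    exact ⟨g, hx, rfl⟩

end

theorem key_ultra {G H : Type} [AddCommGroup G]
    [UniformSpace G] [IsUniformAddGroup G] [T2Space G] [CompleteSpace G] [AddCommGroup H]
    [TopologicalSpace H] (π : G →+ H) (hπ : Continuous π) (V₀ : Set G)
    (hmin : ∀ σ : TopologicalSpace G,
          @IsTopologicalAddGroup G σ _ → @T2Space G σ →
          (UniformSpace.toTopologicalSpace : TopologicalSpace G) ≤ σ →
          V₀ ∈ @nhds G σ 0 → σ = (UniformSpace.toTopologicalSpace : TopologicalSpace G))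
    (W : ℕ → Set H) (X : ℕ → Set G) (hX : Chain X) (hXn : ∀ n, X n ∈ 𝓝 (0 : G))
    (hX0 : X 0 ⊆ V₀) (hXW : ∀ n, ∃ m, W m ⊆ π '' X n) (F : Ultrafilter H) (hF : ∀ n, W n ∈ F) :
    ∃ y : H, (F : Filter H) ≤ 𝓝 y := by
  have hS := chain_small G V₀ hmin X hX hXn hX0
  have hXanti : ∀ n, X (n + 1) ⊆ X n := fun n x hx => by
    have := hX.add n x hx 0 (hX.zero _)
    rwa [add_zero] at this
  have hXanti' : Antitone X := antitone_nat_of_succ_le hXanti
  have hne2 : (Filter.comap π (F : Filter H) ⊓ ⨅ n, 𝓟 (X n)).NeBot := by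
    rw [inf_neBot_iff]
    intro s hs t ht
    obtain ⟨u, hu, hus⟩ := mem_comap.1 hs
    obtain ⟨n, hn⟩ := (mem_iInf_of_directed (f := fun n => 𝓟 (X n)) (by
      intro i j
      exact ⟨max i j, principal_mono.2 (hXanti' (le_max_left i j)),
        principal_mono.2 (hXanti' (le_max_right i j))⟩) t).1 ht
    obtain ⟨m, hm⟩ := hXW n
    have h1 : u ∩ W m ∈ F := inter_mem hu (hF m)
    obtain ⟨y, hy1, hy2⟩ := F.nonempty_of_mem h1
    obtain ⟨x, hx, hxy⟩ := hm hy2
    refine ⟨x, hus ?_, hn hx⟩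
    change π x ∈ u
    rw [hxy]
    exact hy1
  obtain ⟨E, hE⟩ := Ultrafilter.exists_le
    (Filter.comap π (F : Filter H) ⊓ ⨅ n, 𝓟 (X n))
  have hEX : ∀ n, X n ∈ E := fun n =>
    le_principal_iff.1 ((hE.trans inf_le_right).trans (iInf_le _ n))
  have hEF : E.map π = F := by
    refine Ultrafilter.coe_le_coe.1 ?_
    rw [Ultrafilter.coe_map]
    exact map_le_iff_le_comap.2 (hE.trans inf_le_left)
  obtain ⟨x, hx⟩ := ultra_conv X hS E hEX
  refine ⟨π x, ?_⟩
  rw [← hEF, Ultrafilter.coe_map]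
  exact (map_mono hx).trans (hπ.tendsto x)

/-- topologies on `H` all whose chains converge are not coarser than another one -/
theorem key_top {H : Type} [AddCommGroup H] (τ σ : TopologicalSpace H)
    (hτ : @IsTopologicalAddGroup H τ _) (hσ : @IsTopologicalAddGroup H σ _)
    (hσ2 : @T2Space H σ) (hτσ : τ ≤ σ) (W : ℕ → Set H) (hWn : ∀ n, W n ∈ @nhds H σ 0)
    (hW : ∀ F : Ultrafilter H, (∀ n, W n ∈ F) → ∃ y, (F : Filter H) ≤ @nhds H τ y) : σ = τ := by
  refine IsTopologicalAddGroup.ext hσ hτ (le_antisymm ?_ (_root_.nhds_mono hτσ))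
  intro O hO
  by_contra hcon
  have hne : (@nhds H σ 0 ⊓ 𝓟 Oᶜ).NeBot := by
    refine ⟨fun h => hcon ?_⟩
    exact (mem_iff_inf_principal_compl (f := @nhds H σ 0) (s := O)).2 h
  obtain ⟨F, hF⟩ := Ultrafilter.exists_le (@nhds H σ 0 ⊓ 𝓟 Oᶜ)
  have hF1 : (F : Filter H) ≤ @nhds _ σ 0 := hF.trans inf_le_left
  have hF2 : Oᶜ ∈ F := le_principal_iff.1 (hF.trans inf_le_right)
  obtain ⟨y, hy⟩ := hW F fun n => hF1 (hWn n)
  have hFy : (F : Filter H) ≤ @nhds _ σ y := hy.trans (_root_.nhds_mono hτσ)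
  have hy0 : y = 0 := by
    have : (@nhds _ σ y ⊓ @nhds _ σ 0).NeBot :=
      Filter.neBot_of_le (f := (F : Filter H)) (le_inf hFy hF1)
    exact @eq_of_nhds_neBot _ σ hσ2 _ _ this
  rw [hy0] at hy
  have h1 : O ∈ F := hy hO
  have h2 := inter_mem h1 hF2
  rw [inter_compl_self] at h2
  exact F.empty_notMem h2

theorem quotient_locallyMinimal (hLL : TaskLL) (hCH : TaskCH) (G : Type) [AddCommGroup G]
    [UniformSpace G] [IsUniformAddGroup G] [T2Space G] [CompleteSpace G] (hm : LocallyMinimal G)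
    (K : AddSubgroup G) (hK : IsCompact (K : Set G)) : LocallyMinimal (G ⧸ K) := by
  classical
  obtain ⟨V₀, hV₀, hmin⟩ := hm
  obtain ⟨V', hV', hlift⟩ := lift_mk hLL hCH K hK V₀ hV₀
  have hτ : IsTopologicalAddGroup (G ⧸ K) := inferInstance
  have hπ : Continuous (QuotientAddGroup.mk' K) := continuous_quot_mk
  have hku := key_ultra (QuotientAddGroup.mk' K) hπ V₀ hmin
  refine ⟨V', hV', fun σ hσ1 hσ2 hσ3 hσV => ?_⟩
  obtain ⟨W, hW, hWn, hW0⟩ := @exists_chain (G ⧸ K) _ σ hσ1 V' hσV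
  obtain ⟨X, hX, hXn, hX0, hXW⟩ := hlift W hW (fun n => _root_.nhds_mono hσ3 (hWn n)) hW0
  exact key_top _ σ hτ hσ1 hσ2 hσ3 W hWn fun F hF =>
    hku W X hX hXn hX0 hXW F hF

end R658.LQ
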