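import Pool.Agent.R658.LQ.GTG

/-! # MP_27feec_al: quotients of complete locally minimal abelian groups by compact subgroups

Definitions and task statements. -/

set_option autoImplicit false

namespace R658.LQ

open Topology Filter Set Pool.Agent.H753R3.LM

/-- chains of neighbourhoods lift along `q` -/
def Lift {Q H : Type} [AddCommGroup Q] [TopologicalSpace Q] [AddCommGroup H] [TopologicalSpace H]
    (q : Q →+ H) : Prop :=
  ∀ V ∈ 𝓝 (0 : Q), ∃ V' ∈ 𝓝 (0 : H), ∀ W : ℕ → Set H, Chain W → (∀ n, W n ∈ 𝓝 (0 : H)) →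
    W 0 ⊆ V' → ∃ X : ℕ → Set Q, Chain X ∧ (∀ n, X n ∈ 𝓝 (0 : Q)) ∧ X 0 ⊆ V ∧
      ∀ n, ∃ m, W m ⊆ q '' X n

/-- TASK ST (stability of quasi-additive sequences in a closed subgroup of the circle).
A closed subgroup `S` of `ℝ/ℤ` is everything or finite (`AddSubgroup.dense_or_cyclic` for its preimage in `ℝ`).
If `S` is finite take `δ` smaller than the norms of the non-zero elements of `S`: then `t (i+j) = t i + t j`, so
`t j = j • t 1` (`θ = t 1`, or `θ = 0` if `m = 0`; note `t 0 = 0`).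
If `S = ⊤`, `δ = min (ε/3) (1/100)`: lift to reals `s 0 = 0`, `s 1` a lift of `t 1`, `s (j+1) = s j + s 1 + (small lift of
t (j+1) - t j - t 1)`; by induction on `j`, `s (i+j) - s i - s j` is the small lift, i.e. has absolute value `≤ δ` (its change
from `j` to `j+1` is at most `3 δ` and it is within `δ` of an integer).  Let `u j = s j - (j/m) s m`, `u 0 = u m = 0`, quasi-additive with
error `δ`; let `|u j|` be maximal `= M`.  If `2 j ≤ m` then `M ≥ |u (2j)| ≥ 2 M - δ`, so `M ≤ δ`.  Otherwise `i = m - j` has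
`|u i| ≥ M - δ`, `2 i ≤ m`, `M ≥ |u (2 i)| ≥ 2 (M - δ) - δ`, so `M ≤ 3 δ ≤ ε`.  `θ` is the class of `s m / m`. -/
def TaskST : Prop :=
  ∀ S : AddSubgroup (AddCircle (1 : ℝ)), IsClosed (S : Set (AddCircle (1 : ℝ))) → ∀ ε > (0 : ℝ),
    ∃ δ > (0 : ℝ), ∀ (m : ℕ) (t : ℕ → AddCircle (1 : ℝ)), (∀ j ≤ m, t j ∈ S) →
      (∀ i j, i + j ≤ m → ‖t (i + j) - t i - t j‖ ≤ δ) → ∃ θ ∈ S, ∀ j ≤ m, ‖t j - j • θ‖ ≤ ε

/-- TASK DB.  If `‖t j‖ ≥ ε` for some `j` with `4 * j ≤ m` then, as `2 * ‖x‖ = ‖2 • x‖` for `‖x‖ ≤ 1/4`,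
`‖t (2 j)‖ ≥ 2 ε - ε/10` and `‖t (4 j)‖ ≥ 2 (19/10) ε - ε / 10 > 3 ε`. -/
def TaskDB : Prop :=
  ∀ ε : ℝ, 0 < ε → ε ≤ 1 / 100 → ∀ (m : ℕ) (t : ℕ → AddCircle (1 : ℝ)), (∀ j ≤ m, ‖t j‖ ≤ 3 * ε) →
    (∀ i j, i + j ≤ m → ‖t (i + j) - t i - t j‖ ≤ ε / 10) → ∀ j, 4 * j ≤ m → ‖t j‖ < ε

/-- TASK LL (uses TaskST, TaskDB).  `p : P → Q`, `q : Q → H` open continuous surjective, `K = ker (q ∘ p)` compact, `χ` a
continuous character of `K` with kernel `ker p`.  Then chains of neighbourhoods lift along `q`.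

For `V ∈ 𝓝 (0 : Q)`:
(F1) for every neighbourhood `V` of `0` in `Q` there is `ε > 0` with `‖χ k‖ < ε → p k ∈ V` (compactness of `K`);
(F2) for every `ε > 0` there is a neighbourhood `V` of `0` in `Q` such that `k ∈ K`, `p k ∈ V` imply `‖χ k‖ < ε` (the image under `p` of
the compact set `{k | ε ≤ ‖χ k‖}` is compact and does not contain `0`).
Choose a neighbourhood `Va` with `Va + Va ⊆ V`, `0 < ε ≤ 1/100` with `‖χ k‖ < 2 * ε → p k ∈ Va`, `δ ≤ ε / 10` from TaskST for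
`S = range χ` (compact, so closed) and `ε / 2`, and a symmetric neighbourhood `V1 ⊆ Va` such that `k ∈ K`,
`p k ∈ V1 + V1 + V1` (sums of three elements of `V1`) imply `‖χ k‖ < δ`.
Let `I = {p k | ‖χ k‖ < ε}`, `V'' = V1 + I ⊆ V` (symmetric), `V' = q '' V1`.
Given the chain `W`, `W 0 ⊆ V'`, let `X n = {x : Q | q x ∈ W (3 * n) ∧ ∀ j ≤ 4 ^ n, j • x ∈ V''}` (a neighbourhood of `0`:
finite intersection).  `X 0 ⊆ V`.
(A) `W (3 * n) ⊆ q '' X n`: let `q x = h ∈ W (3 n)`.  For `j ≤ 4^n` (`≤ 2^(3n)`), `j • h ∈ W 0 ⊆ q '' V1` (Chain.zsmul_mem), so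
`j • x = v j + p (k j)`, `v j ∈ V1`, `k j ∈ K`; `p (k (i+j) - k i - k j) = v i + v j - v (i+j)`, so `t j = χ (k j)` satisfies
`‖t (i+j) - t i - t j‖ < δ` for `i + j ≤ 4^n`.  TaskST gives `θ ∈ K` with `‖t j - j • χ θ‖ ≤ ε / 2`, and
`x' = x - p θ` satisfies `q x' = h`, `j • x' = v j + p (k j - j • θ) ∈ V''`.
(B) chain property: `x, y ∈ X (n+1)`, `z = x + y`, `q z ∈ W (3 n + 2)`.  For `j ≤ 4^(n+1)` (`≤ 2^(3n+2)`): `j • z ∈ V'' + V''` and
`j • q z ∈ W 0`, so `j • z = v j + p (k j)` and `p (k j - i1 - i2) ∈ V1 + V1 + V1` with `‖χ i1‖, ‖χ i2‖ < ε`, so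
`‖χ (k j)‖ < δ + 2 ε ≤ 3 ε`.  TaskDB gives `‖χ (k j)‖ < ε` for `4 j ≤ 4^(n+1)`, so `j • z ∈ V''` for `j ≤ 4^n`. -/
def TaskLL : Prop :=
  ∀ (P Q H : Type) [AddCommGroup P] [TopologicalSpace P] [IsTopologicalAddGroup P] [AddCommGroup Q]
    [TopologicalSpace Q] [IsTopologicalAddGroup Q] [T2Space Q] [AddCommGroup H] [TopologicalSpace H]
    [IsTopologicalAddGroup H] (p : P →+ Q) (q : Q →+ H), Continuous p → IsOpenMap p →
    Function.Surjective p → Continuous q → IsOpenMap q → Function.Surjective q →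
    ∀ K : AddSubgroup P, IsCompact (K : Set P) → (∀ x, q (p x) = 0 ↔ x ∈ K) →
    ∀ χ : K →+ AddCircle (1 : ℝ), Continuous χ → (∀ k : K, p k = 0 ↔ χ k = 0) → Lift q

/-- TASK CH.  By `Pool.Agent.H428R3.LMT6.taskT6` (i.e. `Pool.Agent.H753R3.LM.TaskT6`) for every `g ≠ 0` there is a continuous
character with `‖χ g‖ ≥ 1/4`; so the open sets `{g | χ g ≠ 0}` cover the compact complement of (the interior of) `V`. -/
def TaskCH : Prop :=
  ∀ (K : Type) [AddCommGroup K] [TopologicalSpace K] [IsTopologicalAddGroup K] [CompactSpace K]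
    [T2Space K], ∀ V ∈ 𝓝 (0 : K), ∃ (r : ℕ) (χ : Fin r → (K →+ AddCircle (1 : ℝ))),
      (∀ i, Continuous (χ i)) ∧ ∀ k, (∀ i, χ i k = 0) → k ∈ V

end R658.LQ
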