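import Mathlib
import Pool.Agent.R658.LQ.Stmts
import Pool.Agent.H428R3.LM_T6

set_option autoImplicit false

namespace R658.LQ

open Topology Filter Set

theorem taskCH : TaskCH := by
  classical
  intro K _ _ _ _ _ V hV
  have hc : IsCompact (interior V)ᶜ := isOpen_interior.isClosed_compl.isCompact
  have h0 : (0 : K) ∈ interior V := mem_interior_iff_mem_nhds.2 hV
  have hex : ∀ g : K, ∃ χ : K →+ AddCircle (1 : ℝ), Continuous χ ∧ (g ≠ 0 → χ g ≠ 0) := by
    intro g
    by_cases hg : g = 0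
    · exact ⟨0, continuous_const, fun h => absurd hg h⟩
    · obtain ⟨χ, h1, h2⟩ := Pool.Agent.H428R3.LMT6.taskT6 K g hg
      refine ⟨χ, h1, fun _ h3 => ?_⟩
      rw [h3, norm_zero] at h2
      norm_num at h2
  choose χ hχ1 hχ2 using hex
  obtain ⟨T, hT1, hT2⟩ := hc.elim_nhds_subcover (fun g => {k | χ g k ≠ 0}) (by
    intro g hg
    have hg0 : g ≠ 0 := by
      rintro rfl
      exact hg h0
    exact (isOpen_ne_fun (hχ1 g) continuous_const).mem_nhds (hχ2 g hg0))
  refine ⟨T.card, fun i => χ (T.equivFin.symm i), fun i => hχ1 _, fun k hk => ?_⟩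
  by_contra hkV
  have h1 : k ∈ (interior V)ᶜ := fun h => hkV (interior_subset h)
  obtain ⟨g, hg, hgk⟩ := mem_iUnion₂.1 (hT2 h1)
  apply hgk
  have := hk (T.equivFin ⟨g, hg⟩)
  simpa using this

end R658.LQ
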