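import Mathlib
import Pool.Agent.R658.LQ.Stmts

set_option autoImplicit false

namespace R658.LQ

open Topology Filter Set

theorem ac_rep (x : AddCircle (1 : ℝ)) : ∃ r : ℝ, (r : AddCircle (1 : ℝ)) = x ∧ ‖x‖ = |r| := by
  obtain ⟨r0, rfl⟩ := QuotientAddGroup.mk_surjective x
  refine ⟨r0 - round r0, ?_, UnitAddCircle.norm_eq⟩
  have h : ((r0 - round r0 : ℝ) : AddCircle (1 : ℝ)) = (r0 : AddCircle (1 : ℝ)) := by
    rw [AddCircle.coe_sub]
    have : ((round r0 : ℝ) : AddCircle (1 : ℝ)) = 0 := by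
      rw [AddCircle.coe_eq_zero_iff]
      exact ⟨round r0, by simp⟩
    rw [this, sub_zero]
  exact h

theorem ac_two (x : AddCircle (1 : ℝ)) (hx : ‖x‖ ≤ 1 / 4) : ‖x + x‖ = 2 * ‖x‖ := by
  obtain ⟨r, rfl, hr⟩ := ac_rep x
  rw [hr] at hx ⊢
  rw [← AddCircle.coe_add]
  rw [(AddCircle.norm_coe_eq_abs_iff (1 : ℝ) one_ne_zero).2]
  · rw [← two_mul, abs_mul]
    simp
  · rw [← two_mul, abs_mul]
    rw [abs_of_pos (two_pos : (0 : ℝ) < 2), abs_one]
    linarith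

theorem ac_dbl (ε : ℝ) (a b : AddCircle (1 : ℝ)) (ha : ‖a‖ ≤ 1 / 4) (h : ‖b - a - a‖ ≤ ε / 10) :
    2 * ‖a‖ - ε / 10 ≤ ‖b‖ := by
  rw [← ac_two a ha]
  have h1 : ‖a + a‖ ≤ ‖b‖ + ‖b - a - a‖ := by
    have : a + a = b - (b - a - a) := by abel
    rw [this]
    exact norm_sub_le _ _
  linarith

theorem taskDB : TaskDB := by
  intro ε hε hε1 m t ht hq j hj
  by_contra hcon
  push Not at hcon
  have h1 := ac_dbl ε (t j) (t (j + j)) (by linarith [ht j (by omega)]) (hq j j (by omega))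
  have h2 := ac_dbl ε (t (j + j)) (t (j + j + (j + j))) (by linarith [ht (j + j) (by omega)])
    (hq (j + j) (j + j) (by omega))
  have h3 := ht (j + j + (j + j)) (by omega)
  linarith

end R658.LQ
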