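import Mathlib
import Pool.Agent.R658.LQ.Stmts

set_option autoImplicit false

namespace R658.LQ

open Topology Filter Set Pool.Agent.H753R3.LM

section aux

variable {P Q : Type} [AddCommGroup P] [TopologicalSpace P] [IsTopologicalAddGroup P]
  [AddCommGroup Q] [TopologicalSpace Q] [IsTopologicalAddGroup Q] [T2Space Q]

theorem ll_F1 (p : P →+ Q) (hp : Continuous p) (K : AddSubgroup P) (hK : IsCompact (K : Set P))
    (χ : K →+ AddCircle (1 : ℝ)) (hχ : Continuous χ) (hχk : ∀ k : K, p k = 0 ↔ χ k = 0)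
    (V : Set Q) (hV : V ∈ 𝓝 (0 : Q)) : ∃ ε > (0 : ℝ), ∀ k : K, ‖χ k‖ < ε → p k ∈ V := by
  haveI : CompactSpace K := isCompact_iff_compactSpace.1 hK
  have hcont : Continuous (fun k : K => p k) := hp.comp continuous_subtype_val
  have hC : IsCompact ((fun k : K => p k) ⁻¹' (interior V)ᶜ) :=
    (isOpen_interior.isClosed_compl.preimage hcont).isCompact
  have h0 : (0 : Q) ∈ interior V := mem_interior_iff_mem_nhds.2 hV
  rcases ((fun k : K => p k) ⁻¹' (interior V)ᶜ).eq_empty_or_nonempty with he | hne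
  · refine ⟨1, one_pos, fun k _ => ?_⟩
    by_contra hk
    have : k ∈ ((fun k : K => p k) ⁻¹' (interior V)ᶜ) := fun h => hk (interior_subset h)
    rw [he] at this
    exact this
  · obtain ⟨k0, hk0, hmin⟩ := hC.exists_isMinOn hne (hχ.norm.continuousOn)
    have hpos : 0 < ‖χ k0‖ := by
      rw [norm_pos_iff]
      intro h
      have h1 := (hχk k0).2 h
      apply hk0
      show p k0 ∈ interior V
      rw [h1]
      exact h0
    refine ⟨‖χ k0‖, hpos, fun k hk => ?_⟩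
    by_contra hk2
    have h1 : k ∈ ((fun k : K => p k) ⁻¹' (interior V)ᶜ) := fun h => hk2 (interior_subset h)
    have h2 := hmin h1
    have h3 : ‖χ k0‖ ≤ ‖χ k‖ := h2
    linarith

theorem ll_F2 (p : P →+ Q) (hp : Continuous p) (K : AddSubgroup P) (hK : IsCompact (K : Set P))
    (χ : K →+ AddCircle (1 : ℝ)) (hχ : Continuous χ) (hχk : ∀ k : K, p k = 0 ↔ χ k = 0)
    (ε : ℝ) (hε : 0 < ε) : ∃ V ∈ 𝓝 (0 : Q), ∀ k : K, p k ∈ V → ‖χ k‖ < ε := by
  haveI : CompactSpace K := isCompact_iff_compactSpace.1 hK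
  have hcont : Continuous (fun k : K => p k) := hp.comp continuous_subtype_val
  have hD : IsCompact {k : K | ε ≤ ‖χ k‖} :=
    (isClosed_le continuous_const hχ.norm).isCompact
  have hD2 : IsClosed ((fun k : K => p k) '' {k : K | ε ≤ ‖χ k‖}) := (hD.image hcont).isClosed
  refine ⟨((fun k : K => p k) '' {k : K | ε ≤ ‖χ k‖})ᶜ, hD2.isOpen_compl.mem_nhds ?_, ?_⟩
  · rintro ⟨k, hk, hk0⟩
    have h1 : ε ≤ ‖χ k‖ := hk
    rw [(hχk k).1 hk0, norm_zero] at h1
    linarith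
  · intro k hk
    by_contra h
    push Not at h
    exact hk ⟨k, h, rfl⟩

end aux

theorem taskLL (hST : TaskST) (hDB : TaskDB) : TaskLL := by
  intro P Q H _ _ _ _ _ _ _ _ _ _ p q hp hpo hps hq hqo hqs K hK hker χ hχ hχk V hV
  haveI : CompactSpace K := isCompact_iff_compactSpace.1 hK
  obtain ⟨Va, hVa, hVa2⟩ := exists_nhds_zero_half hV
  obtain ⟨ε0, hε0, hε0'⟩ := ll_F1 p hp K hK χ hχ hχk Va hVa
  set ε := min ε0 (1 / 100) with hεdef
  have hε : 0 < ε := lt_min hε0 (by norm_num)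
  have hε1 : ε ≤ 1 / 100 := min_le_right _ _
  have hεV : ∀ k : K, ‖χ k‖ < ε → p k ∈ Va := fun k hk => hε0' k (hk.trans_le (min_le_left _ _))
  have hScl : IsClosed ((χ.range : AddSubgroup (AddCircle (1 : ℝ))) : Set (AddCircle (1 : ℝ))) := by
    rw [AddMonoidHom.coe_range]
    exact (isCompact_range hχ).isClosed
  obtain ⟨δ0, hδ0, hST'⟩ := hST χ.range hScl (ε / 2) (by positivity)
  set δ := min δ0 (ε / 10) with hδdef
  have hδ : 0 < δ := lt_min hδ0 (by positivity)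
  have hδ1 : δ ≤ δ0 := min_le_left _ _
  have hδ2 : δ ≤ ε / 10 := min_le_right _ _
  obtain ⟨Vb, hVb, hVb2⟩ := ll_F2 p hp K hK χ hχ hχk δ hδ
  obtain ⟨Vc, hVc, hVc2⟩ := exists_nhds_zero_half hVb
  obtain ⟨Vd, hVd, hVd2⟩ := exists_nhds_zero_half hVc
  set V0 := Va ∩ Vd with hV0def
  have hV0 : V0 ∈ 𝓝 (0 : Q) := inter_mem hVa hVd
  set V1 := V0 ∩ -V0 with hV1def
  have hV1 : V1 ∈ 𝓝 (0 : Q) := inter_mem hV0 (neg_mem_nhds_zero Q hV0)
  have hV1neg : ∀ v ∈ V1, -v ∈ V1 := by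
    intro v hv
    refine ⟨hv.2, ?_⟩
    show - -v ∈ V0
    rw [neg_neg]
    exact hv.1
  have hV1a : ∀ v ∈ V1, v ∈ Va := fun v hv => hv.1.1
  have hV13 : ∀ (k : K) (a b c : Q), a ∈ V1 → b ∈ V1 → c ∈ V1 → p k = a + b - c → ‖χ k‖ < δ := by
    intro k a b c ha hb hc hk
    apply hVb2
    rw [hk, sub_eq_add_neg]
    refine hVc2 _ (hVd2 _ ha.1.2 _ hb.1.2) _ ?_
    have := hVd2 _ (hV1neg c hc).1.2 _ (mem_of_mem_nhds hVd)
    rwa [add_zero] at this
  -- V''
  set V2 : Set Q := {y | ∃ v ∈ V1, ∃ k : K, ‖χ k‖ < ε ∧ y = v + p k} with hV2def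
  have hV12 : V1 ⊆ V2 := by
    intro v hv
    exact ⟨v, hv, 0, by rw [map_zero, norm_zero]; exact hε, by simp⟩
  have hV2V : V2 ⊆ V := by
    rintro _ ⟨v, hv, k, hk, rfl⟩
    exact hVa2 _ (hV1a v hv) _ (hεV k hk)
  have hV2n : V2 ∈ 𝓝 (0 : Q) := mem_of_superset hV1 hV12
  have hV2neg : ∀ y ∈ V2, -y ∈ V2 := by
    rintro _ ⟨v, hv, k, hk, rfl⟩
    refine ⟨-v, hV1neg v hv, -k, by rw [map_neg, norm_neg]; exact hk, ?_⟩
    rw [AddSubgroup.coe_neg, map_neg]
    abel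
  refine ⟨q '' V1, ?_, ?_⟩
  · have := hqo.image_mem_nhds hV1
    rwa [map_zero] at this
  intro W hW hWn hW0
  -- the key
  have key : ∀ (r m : ℕ) (z : Q), q z ∈ W r → m ≤ 2 ^ r → ∃ (v : ℕ → Q) (k : ℕ → K),
      (∀ j ≤ m, v j ∈ V1 ∧ j • z = v j + p (k j)) ∧
      ∀ i j, i + j ≤ m → ‖χ (k (i + j)) - χ (k i) - χ (k j)‖ < δ := by
    intro r m z hz hm
    have h1 : ∀ j : ℕ, ∃ (v : Q) (k : K), j ≤ m → v ∈ V1 ∧ j • z = v + p k := by
      intro j
      by_cases hj : j ≤ m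
      · have h2 : (j : ℤ) • q z ∈ W 0 := by
          refine Chain.zsmul_mem hW r 0 j (q z) ?_ (by rwa [zero_add])
          rw [abs_of_nonneg (by positivity)]
          exact_mod_cast hj.trans hm
        obtain ⟨v, hv, hvq⟩ := hW0 h2
        obtain ⟨y, hy⟩ := hps (j • z - v)
        have hyK : y ∈ K := by
          rw [← hker, hy, map_sub, hvq, map_nsmul, natCast_zsmul, sub_self]
        refine ⟨v, ⟨y, hyK⟩, fun _ => ⟨hv, ?_⟩⟩
        show j • z = v + p y
        rw [hy]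
        abel
      · exact ⟨0, 0, fun h => absurd h hj⟩
    choose v k hvk using h1
    refine ⟨v, k, hvk, fun i j hij => ?_⟩
    have h2 := hvk (i + j) hij
    have h3 := hvk i (by omega)
    have h4 := hvk j (by omega)
    rw [← map_sub, ← map_sub]
    refine hV13 _ _ _ _ h3.1 h4.1 h2.1 ?_
    rw [AddSubgroup.coe_sub, AddSubgroup.coe_sub, map_sub, map_sub]
    have e1 : p (k (i + j)) = (i + j) • z - v (i + j) := by rw [h2.2]; abel
    have e2 : p (k i) = i • z - v i := by rw [h3.2]; abel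
    have e3 : p (k j) = j • z - v j := by rw [h4.2]; abel
    rw [e1, e2, e3, add_smul]
    abel
  set X : ℕ → Set Q := fun n => {x | q x ∈ W (3 * n) ∧ ∀ j : ℕ, j ≤ 4 ^ n → j • x ∈ V2} with hX
  have h42 : ∀ n : ℕ, 4 ^ n = 2 ^ (2 * n) := by
    intro n
    rw [pow_mul]
    norm_num
  refine ⟨X, ⟨?_, ?_, ?_⟩, ?_, ?_, ?_⟩
  · intro n
    refine ⟨by rw [map_zero]; exact hW.zero _, fun j _ => ?_⟩
    rw [smul_zero]
    exact mem_of_mem_nhds hV2n
  · rintro n x ⟨h1, h2⟩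
    refine ⟨by rw [map_neg]; exact hW.neg _ _ h1, fun j hj => ?_⟩
    rw [smul_neg]
    exact hV2neg _ (h2 j hj)
  · rintro n x ⟨hx1, hx2⟩ y ⟨hy1, hy2⟩
    have hz : q (x + y) ∈ W (3 * n + 2) := by
      rw [map_add]
      exact hW.add _ _ hx1 _ hy1
    refine ⟨Chain.anti hW (by omega) hz, ?_⟩
    obtain ⟨v, k, hvk, hqa⟩ := key (3 * n + 2) (4 ^ (n + 1)) (x + y) hz (by
      rw [h42]
      exact Nat.pow_le_pow_right (by norm_num) (by omega))
    have hb : ∀ j ≤ 4 ^ (n + 1), ‖χ (k j)‖ ≤ 3 * ε := by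
      intro j hj
      obtain ⟨a1, ha1, i1, hi1, e1⟩ := hx2 j hj
      obtain ⟨a2, ha2, i2, hi2, e2⟩ := hy2 j hj
      obtain ⟨hv, e3⟩ := hvk j hj
      have h1 : ‖χ (k j - i1 - i2)‖ < δ := by
        refine hV13 _ a1 a2 (v j) ha1 ha2 hv ?_
        rw [AddSubgroup.coe_sub, AddSubgroup.coe_sub, map_sub, map_sub]
        have e4 : p (k j) = j • x + j • y - v j := by
          rw [← smul_add, e3]
          abel
        rw [e4, e1, e2]
        abel
      have h2 : χ (k j) = χ (k j - i1 - i2) + χ i1 + χ i2 := by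
        rw [map_sub, map_sub]
        abel
      have h3 : ‖χ (k j)‖ ≤ ‖χ (k j - i1 - i2)‖ + ‖χ i1‖ + ‖χ i2‖ := by
        rw [h2]
        exact norm_add₃_le
      linarith
    have hlt := hDB ε hε hε1 (4 ^ (n + 1)) (fun j => χ (k j)) hb
      (fun i j hij => (hqa i j hij).le.trans hδ2)
    intro j hj
    have hj4 : 4 * j ≤ 4 ^ (n + 1) := by
      rw [pow_succ]
      omega
    obtain ⟨hv, e3⟩ := hvk j (by omega)
    exact ⟨v j, hv, k j, hlt j hj4, e3⟩
  · intro n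
    have h1 : (q ⁻¹' (W (3 * n))) ∈ 𝓝 (0 : Q) := by
      have := hq.tendsto 0
      rw [map_zero] at this
      exact this (hWn _)
    have h2 : (⋂ j ∈ Finset.range (4 ^ n + 1), (fun x : Q => j • x) ⁻¹' V2) ∈ 𝓝 (0 : Q) := by
      rw [biInter_finset_mem]
      intro j _
      have hc : Continuous (fun x : Q => j • x) := continuous_nsmul j
      have := hc.tendsto 0
      rw [smul_zero] at this
      exact this hV2n
    refine mem_of_superset (inter_mem h1 h2) ?_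
    rintro x ⟨hx1, hx2⟩
    refine ⟨hx1, fun j hj => ?_⟩
    have := mem_iInter₂.1 hx2 j (Finset.mem_range.2 (by omega))
    exact this
  · rintro x ⟨_, hx⟩
    have := hx 1 (by simp)
    rw [one_smul] at this
    exact hV2V this
  · intro n
    refine ⟨3 * n, ?_⟩
    intro h hh
    obtain ⟨x, rfl⟩ := hqs h
    obtain ⟨v, k, hvk, hqa⟩ := key (3 * n) (4 ^ n) x hh (by
      rw [h42]
      exact Nat.pow_le_pow_right (by norm_num) (by omega))
    obtain ⟨θ', ⟨θ, rfl⟩, hθ⟩ := hST' (4 ^ n) (fun j => χ (k j)) (fun j _ => ⟨k j, rfl⟩)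
      (fun i j hij => (hqa i j hij).le.trans hδ1)
    have hqθ : q (p θ) = 0 := (hker _).2 θ.2
    have hqx : q (x - p θ) = q x := by rw [map_sub, hqθ, sub_zero]
    refine ⟨x - p θ, ⟨?_, fun j hj => ?_⟩, hqx⟩
    · rw [hqx]
      exact hh
    · refine ⟨v j, (hvk j hj).1, k j - j • θ, ?_, ?_⟩
      · rw [map_sub, map_nsmul]
        have := hθ j hj
        linarith
      · rw [smul_sub, (hvk j hj).2, AddSubgroup.coe_sub, AddSubgroup.coe_nsmul, map_sub, map_nsmul]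
        abel

end R658.LQ
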