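import Mathlib
import Pool.Agent.R658.LQ.Stmts

/-! # MP_27feec_al, task ST: stability of quasi-additive sequences in a closed subgroup of the
circle -/

set_option autoImplicit false

namespace R658.LQ

namespace ST

/-- small lifts -/
theorem exists_lift (x : AddCircle (1 : ℝ)) : ∃ r : ℝ, (r : AddCircle (1 : ℝ)) = x ∧ |r| = ‖x‖ := by
  obtain ⟨y, rfl⟩ := QuotientAddGroup.mk_surjective x
  refine ⟨y - round y, ?_, ?_⟩
  · have h : ((round y : ℝ) : AddCircle (1 : ℝ)) = 0 := by
      rw [AddCircle.coe_eq_zero_iff]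
      exact ⟨round y, by simp⟩
    rw [AddCircle.coe_sub, h, sub_zero]
  · exact (UnitAddCircle.norm_eq (x := y)).symm

theorem norm_le_abs (r : ℝ) : ‖(r : AddCircle (1 : ℝ))‖ ≤ |r| := by
  rw [UnitAddCircle.norm_eq]
  have := round_le r 0
  simpa using this

/-- a number whose class has norm at most `δ` is within `δ` of an integer -/
theorem near_int (r δ : ℝ) (h : ‖(r : AddCircle (1 : ℝ))‖ ≤ δ) : ∃ n : ℤ, |r - n| ≤ δ := by
  rw [UnitAddCircle.norm_eq] at h
  exact ⟨round r, h⟩

/-- quasi-additive sequences of real numbers -/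
theorem real_case (m : ℕ) (hm : 0 < m) (s : ℕ → ℝ) (δ : ℝ)
    (hs : ∀ i j, i + j ≤ m → |s (i + j) - s i - s j| ≤ δ) :
    ∀ j ≤ m, |s j - j * (s m / m)| ≤ 3 * δ := by
  have hm' : (m : ℝ) ≠ 0 := by exact_mod_cast hm.ne'
  set u : ℕ → ℝ := fun j => s j - j * (s m / m) with hu
  have hδ : 0 ≤ δ := (abs_nonneg _).trans (hs 0 0 (by omega))
  have hadd : ∀ i j, i + j ≤ m → |u (i + j) - u i - u j| ≤ δ := by
    intro i j hij
    have e : u (i + j) - u i - u j = s (i + j) - s i - s j := by
      simp only [hu]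
      push_cast
      ring
    rw [e]
    exact hs i j hij
  have hum : u m = 0 := by
    simp only [hu]
    field_simp
    ring
  obtain ⟨j, hj, hmax⟩ := Finset.exists_max_image (Finset.range (m + 1)) (fun j => |u j|)
    ⟨0, Finset.mem_range.2 (by omega)⟩
  have hj' : j ≤ m := by
    have := Finset.mem_range.1 hj
    omega
  have hmax' : ∀ i ≤ m, |u i| ≤ |u j| := fun i hi => hmax i (Finset.mem_range.2 (by omega))
  have hdbl : ∀ i, 2 * i ≤ m → 2 * |u i| - δ ≤ |u (2 * i)| := by
    intro i hi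
    have h1 := hadd i i (by omega)
    rw [← two_mul] at h1
    have h2 := abs_sub_abs_le_abs_sub (2 * u i) (u (2 * i))
    rw [abs_mul, abs_two] at h2
    have h3 : |2 * u i - u (2 * i)| = |u (2 * i) - u i - u i| := by
      rw [abs_sub_comm]
      congr 1
      ring
    rw [h3] at h2
    linarith
  have hM : |u j| ≤ 3 * δ := by
    by_cases h2j : 2 * j ≤ m
    · have h1 := hdbl j h2j
      have h2 := hmax' (2 * j) h2j
      linarith
    · have h1 := hadd (m - j) j (by omega)
      rw [Nat.sub_add_cancel hj', hum] at h1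
      have h2 := hdbl (m - j) (by omega)
      have h3 := hmax' (2 * (m - j)) (by omega)
      have h4 : |u j| - |u (m - j)| ≤ δ := by
        have h5 := abs_sub_abs_le_abs_sub (u j) (-u (m - j))
        rw [abs_neg] at h5
        have h6 : |u j - -u (m - j)| = |0 - u (m - j) - u j| := by
          rw [abs_sub_comm]
          congr 1
          ring
        rw [h6] at h5
        linarith
      linarith
  intro i hi
  exact (hmax' i hi).trans hM

theorem top_case (ε : ℝ) (hε : 0 < ε) : ∃ δ > (0 : ℝ), ∀ (m : ℕ) (t : ℕ → AddCircle (1 : ℝ)),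
    (∀ i j, i + j ≤ m → ‖t (i + j) - t i - t j‖ ≤ δ) →
    ∃ θ : AddCircle (1 : ℝ), ∀ j ≤ m, ‖t j - j • θ‖ ≤ ε := by
  refine ⟨min (ε / 3) (1 / 100), lt_min (by positivity) (by norm_num), ?_⟩
  intro m t ht
  set δ := min (ε / 3) (1 / 100) with hδd
  have hδ1 : δ ≤ ε / 3 := min_le_left _ _
  have hδ2 : δ ≤ 1 / 100 := min_le_right _ _
  have hδ0 : 0 < δ := lt_min (by positivity) (by norm_num)
  have h0 : ‖t 0‖ ≤ δ := by
    have := ht 0 0 (by omega)
    rwa [add_zero, sub_self, zero_sub, norm_neg] at this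
  rcases Nat.eq_zero_or_pos m with hm | hm
  · subst hm
    refine ⟨0, fun j hj => ?_⟩
    have : j = 0 := by omega
    subst this
    rw [smul_zero, sub_zero]
    linarith
  choose lf hlf1 hlf2 using exists_lift
  set b := lf (t 1) with hb
  set a : ℕ → ℝ := fun j => lf (t (j + 1) - t j - t 1) with ha
  set s : ℕ → ℝ := fun j => Nat.rec (lf (t 0)) (fun j x => x + b + a j) j with hs
  have hs0 : s 0 = lf (t 0) := rfl
  have hsS : ∀ j, s (j + 1) = s j + b + a j := fun j => rfl
  have hst : ∀ j, (s j : AddCircle (1 : ℝ)) = t j := by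
    intro j
    induction j with
    | zero => rw [hs0, hlf1]
    | succ j ih =>
      rw [hsS, AddCircle.coe_add, AddCircle.coe_add, ih, hb, ha, hlf1, hlf1]
      abel
  have haj : ∀ j, j + 1 ≤ m → |a j| ≤ δ := by
    intro j hj
    rw [ha]
    show |lf (t (j + 1) - t j - t 1)| ≤ δ
    rw [hlf2]
    exact ht j 1 hj
  have hquasi : ∀ i j, i + j ≤ m → |s (i + j) - s i - s j| ≤ δ := by
    intro i j
    induction j with
    | zero =>
      intro _
      rw [add_zero, sub_self, zero_sub, abs_neg, hs0, hlf2]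
      exact h0
    | succ j ih =>
      intro hij
      have h1 := ih (by omega)
      have h2 := haj (i + j) (by omega)
      have h3 := haj j (by omega)
      have e : s (i + (j + 1)) - s i - s (j + 1) = (s (i + j) - s i - s j) + (a (i + j) - a j) := by
        rw [← add_assoc, hsS, hsS]
        ring
      have h4 : |s (i + (j + 1)) - s i - s (j + 1)| ≤ 3 * δ := by
        rw [e]
        have h5 := abs_add_le (s (i + j) - s i - s j) (a (i + j) - a j)
        have h6 := abs_sub (a (i + j)) (a j)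
        linarith
      have h7 : ‖((s (i + (j + 1)) - s i - s (j + 1) : ℝ) : AddCircle (1 : ℝ))‖ ≤ δ := by
        have e2 : ((s (i + (j + 1)) - s i - s (j + 1) : ℝ) : AddCircle (1 : ℝ)) =
            t (i + (j + 1)) - t i - t (j + 1) := by
          rw [AddCircle.coe_sub, AddCircle.coe_sub, hst (i + (j + 1)), hst i]
          exact congrArg _ (hst (j + 1))
        rw [e2]
        exact ht i (j + 1) hij
      obtain ⟨n, hn⟩ := near_int _ _ h7
      have hn0 : n = 0 := by
        have h8 : |(n : ℝ)| < 1 := by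
          have h9 : (n : ℝ) = (s (i + (j + 1)) - s i - s (j + 1)) -
            (s (i + (j + 1)) - s i - s (j + 1) - n) := by ring
          rw [h9]
          have h10 := abs_sub (s (i + (j + 1)) - s i - s (j + 1))
            (s (i + (j + 1)) - s i - s (j + 1) - n)
          linarith
        have h11 : |n| < 1 := by exact_mod_cast h8
        exact Int.abs_lt_one_iff.1 h11
      rw [hn0, Int.cast_zero, sub_zero] at hn
      exact hn
  have hfin := real_case m hm s δ hquasi
  refine ⟨((s m / m : ℝ) : AddCircle (1 : ℝ)), fun j hj => ?_⟩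
  rw [← hst j, ← AddCircle.coe_nsmul, ← AddCircle.coe_sub, nsmul_eq_mul]
  exact (norm_le_abs _).trans ((hfin j hj).trans (by linarith))

theorem disc_case (S : AddSubgroup (AddCircle (1 : ℝ))) (δ : ℝ) (hδ : 0 < δ)
    (hS : ∀ x ∈ S, ‖x‖ ≤ δ → x = 0) (ε : ℝ) (hε : 0 < ε) (m : ℕ) (t : ℕ → AddCircle (1 : ℝ))
    (htS : ∀ j ≤ m, t j ∈ S) (ht : ∀ i j, i + j ≤ m → ‖t (i + j) - t i - t j‖ ≤ δ) :
    ∃ θ ∈ S, ∀ j ≤ m, ‖t j - j • θ‖ ≤ ε := by
  have hadd : ∀ i j, i + j ≤ m → t (i + j) = t i + t j := by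
    intro i j hij
    have h1 := hS _ (S.sub_mem (S.sub_mem (htS _ hij) (htS i (by omega))) (htS j (by omega)))
      (ht i j hij)
    rw [sub_sub, sub_eq_zero] at h1
    exact h1
  have h0 : t 0 = 0 := by
    have := hadd 0 0 (by omega)
    rw [add_zero] at this
    exact left_eq_add.1 this
  rcases Nat.eq_zero_or_pos m with hm | hm
  · subst hm
    refine ⟨0, S.zero_mem, fun j hj => ?_⟩
    have : j = 0 := by omega
    subst this
    rw [h0, smul_zero, sub_zero, norm_zero]
    exact hε.le
  · refine ⟨t 1, htS 1 (by omega), fun j hj => ?_⟩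
    have h1 : ∀ j ≤ m, t j = j • t 1 := by
      intro j
      induction j with
      | zero => intro _; rw [h0, zero_smul]
      | succ j ih =>
        intro hj
        rw [hadd j 1 hj, ih (by omega), succ_nsmul]
    rw [← h1 j hj, sub_self, norm_zero]
    exact hε.le

/-- a closed subgroup of the circle is everything or discrete -/
theorem top_or_disc (S : AddSubgroup (AddCircle (1 : ℝ)))
    (hS : IsClosed (S : Set (AddCircle (1 : ℝ)))) :
    S = ⊤ ∨ ∃ δ : ℝ, 0 < δ ∧ ∀ x ∈ S, ‖x‖ ≤ δ → x = 0 := by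
  set P : AddSubgroup ℝ := S.comap (QuotientAddGroup.mk' (AddSubgroup.zmultiples (1 : ℝ))) with hP
  have hmem : ∀ r : ℝ, r ∈ P ↔ (r : AddCircle (1 : ℝ)) ∈ S := fun r => Iff.rfl
  have hPc : IsClosed (P : Set ℝ) := by
    have hc : Continuous fun r : ℝ => (r : AddCircle (1 : ℝ)) := AddCircle.continuous_mk' 1
    exact hS.preimage hc
  have h1P : (1 : ℝ) ∈ P := by
    rw [hmem, AddCircle.coe_period]
    exact S.zero_mem
  rcases AddSubgroup.dense_or_cyclic P with hd | ⟨a, ha⟩
  · left
    have h : (P : Set ℝ) = Set.univ := by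
      rw [← hPc.closure_eq]
      exact hd.closure_eq
    rw [AddSubgroup.eq_top_iff']
    intro x
    obtain ⟨r, rfl⟩ := QuotientAddGroup.mk_surjective x
    have : r ∈ (P : Set ℝ) := by
      rw [h]
      exact Set.mem_univ _
    exact this
  · right
    have hPa : ∀ r : ℝ, r ∈ P ↔ ∃ n : ℤ, n • a = r := by
      intro r
      rw [ha, AddSubgroup.mem_closure_singleton]
    have ha0 : a ≠ 0 := by
      rintro rfl
      obtain ⟨n, hn⟩ := (hPa 1).1 h1P
      rw [smul_zero] at hn
      exact zero_ne_one hn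
    refine ⟨|a| / 2, by positivity, fun x hx hxn => ?_⟩
    obtain ⟨r, rfl, hr⟩ := exists_lift x
    obtain ⟨n, hn⟩ := (hPa r).1 ((hmem r).2 hx)
    have hlt : |r| < |a| := by
      rw [hr]
      have : 0 < |a| := abs_pos.2 ha0
      linarith
    rw [← hn, zsmul_eq_mul, abs_mul] at hlt
    have h2 : |(n : ℝ)| < 1 := by
      have h3 : 0 < |a| := abs_pos.2 ha0
      by_contra hcon
      push Not at hcon
      have := mul_le_mul_of_nonneg_right hcon h3.le
      linarith
    have h4 : n = 0 := by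
      have h5 : |n| < 1 := by exact_mod_cast h2
      exact Int.abs_lt_one_iff.1 h5
    rw [← hn, h4, zero_smul, AddCircle.coe_zero]

end ST

theorem taskST : TaskST := by
  intro S hS ε hε
  rcases ST.top_or_disc S hS with h | ⟨δ, hδ, h⟩
  · obtain ⟨δ, hδ, h1⟩ := ST.top_case ε hε
    refine ⟨δ, hδ, fun m t _ ht => ?_⟩
    obtain ⟨θ, hθ⟩ := h1 m t ht
    exact ⟨θ, by rw [h]; trivial, hθ⟩
  · exact ⟨δ, hδ, fun m t htS ht => ST.disc_case S δ hδ h ε hε m t htS ht⟩

end R658.LQ
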